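import Pool.Agent.U644.CN.Core

/-!
# MP_e2821c_ag: Beilinson–Soulé vanishing and the number of elements of the motivic cohomology of one field

Q1 asks whether the complex `ℤ(n)` on `Sm/k` is acyclic in all degrees `≤ 0`, for all fields `k` and all `n ≥ 1`.

Let `k₀` be a prime field (`ℚ` or `𝔽_p`) and `Ω` any uncountable algebraically closed field which contains it, for example
`ℂ`.

Theorem. (A) Let `K` be a finitely generated extension of `k₀`, `n ≥ 1` and `i ≤ 0`. Every nonzero element of
`H^i(K, ℤ(n))` has as many images in `H^i(Ω, ℤ(n))` under the embeddings of `K` in `Ω` as `Ω` has elements.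

(B) For each weight `n ≥ 1` the complexes `ℤ(n)` on `Sm/k` are acyclic in all degrees `≤ 0` for all fields `k` of the
characteristic of `k₀`, if and only if the groups `H^i(Ω, ℤ(n))`, `i ≤ 0`, are countable, if and only if they have fewer elements
than `Ω`, if and only if every element of `H^i(K, ℤ(n))`, `i ≤ 0`, `K` finitely generated over `k₀`, has the same image under
some two independent embeddings of `K` in `Ω`.

Proof. There are as many pairwise independent embeddings of `K` in `Ω` as `Ω` has elements. If `x` has the same image under two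
independent embeddings, its two pull-backs to an open subset of a component of `S × S` are equal, where `S` is a smooth variety
over `k₀` with function field `K` to which `x` extends. The restriction to `S × {s}` for a closed point `s` shows that `x` comes,
after a finite extension of `K`, from the residue field of `s`, a number field or a finite field. So it is zero by the theorems
of Borel and Quillen.
-/

set_option autoImplicit false

open Pool.Agent.U644.CN Cardinal

universe w

namespace Pool.Agent.Results.MP_e2821c_ag.CountableSuffices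

/-- The groups `H n m L = CH^n(L, m) = H^(2n-m)(L, ℤ(n))` of fields `L` with the maps for field extensions, and the
statements `Acyclic k n`: the complex `ℤ(n)` on `Sm/k` is acyclic in all degrees `≤ 0`. -/
structure MotivicData where
  H : ℤ → ℤ → (L : Type) → [Field L] → Type w
  grp : ∀ n m (L : Type) [Field L], AddCommGroup (H n m L)
  map : ∀ (n m : ℤ) {L L' : Type} [Field L] [Field L'], (L →+* L') → H n m L →+ H n m L'
  Acyclic : (k : Type) → [Field k] → ℤ → Prop

attribute [instance] MotivicData.grp

/-- `k` is a prime field: it has only one subfield. -/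
def IsPrimeField (k : Type) [Field k] : Prop := Subsingleton (Subfield k)

/-- Known properties of the motivic cohomology of fields, for the prime field `k₀` and the weight `n ≥ 1`.

* `gersten`: for a perfect field `k` the complex `ℤ(n)` on `Sm/k` is acyclic in the degrees `≤ 0` if and only if
  `H^(2n-m)(L, ℤ(n)) = 0` for all finitely generated extensions `L` of `k` and all `m ≥ 2 n` (Voevodsky);
* `perfect`: it suffices to treat perfect fields;
* `injective`: `H^i(L, ℤ(n)) → H^i(L', ℤ(n))` is injective for `i ≤ 0` (these groups have no torsion; transfers);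
* `small`: `H^i(L, ℤ(n))` is the limit of the groups of the finitely generated subfields;
* `base`: `H^i(P, ℤ(n)) = 0` for `i ≤ 0` if `P` is finite over the prime field, that is, a number field (Borel) or a finite
  field (Quillen);
* `special`: let `K` be the quotient field of a domain `B` of finite type over the prime field, `i` and `j` independent
  embeddings of `K` in `L`, and `x` in `H^a(K, ℤ(n))`, `a ≤ 0`, with `i(x) = j(x)`. Then `x` comes, after an extension of `K`,
  from a finite extension of the prime field (specialization). -/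
structure IsMotivic (T : MotivicData.{w}) (k₀ : Type) [Field k₀] (n : ℤ) : Prop where
  gersten : ∀ (k : Type) [Field k] [Algebra k₀ k] [PerfectField k], T.Acyclic k n ↔
    ∀ m : ℤ, 2 * n ≤ m → ∀ (L : Type) [Field L] [Algebra k L] [Algebra.EssFiniteType k L],
      Subsingleton (T.H n m L)
  perfect : (∀ (k : Type) [Field k] [Algebra k₀ k] [PerfectField k], T.Acyclic k n) →
    ∀ (k : Type) [Field k] [Algebra k₀ k], T.Acyclic k n
  injective : ∀ (m : ℤ), 2 * n ≤ m → ∀ {L L' : Type} [Field L] [Field L'] [Algebra k₀ L]
    (f : L →+* L'), Function.Injective (T.map n m f)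
  small : ∀ (m : ℤ) (L : Type) [Field L] [Algebra k₀ L] (y : T.H n m L),
    ∃ (B : Type) (_ : CommRing B) (_ : IsDomain B) (_ : Algebra k₀ B) (_ : Algebra.FiniteType k₀ B)
      (f : FractionRing B →+* L) (x : T.H n m (FractionRing B)), T.map n m f x = y
  base : ∀ (m : ℤ), 2 * n ≤ m → ∀ (P : Type) [Field P] [Algebra k₀ P] [FiniteDimensional k₀ P],
    Subsingleton (T.H n m P)
  special : ∀ (m : ℤ), 2 * n ≤ m → ∀ (B : Type) [CommRing B] [IsDomain B] [Algebra k₀ B]
    [Algebra.FiniteType k₀ B] (L : Type) [Field L] [Algebra k₀ L] (i j : FractionRing B →+* L),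
    Independent k₀ i j → ∀ x, T.map n m i x = T.map n m j x →
    ∃ (K' P : Type) (_ : Field K') (_ : Field P) (_ : Algebra k₀ P) (_ : FiniteDimensional k₀ P)
      (f : FractionRing B →+* K') (g : P →+* K') (y : T.H n m P), T.map n m f x = T.map n m g y

/-- The quotient field of a domain of finite type over a countable field is countable. -/
lemma countable_fraction (k₀ : Type) [Field k₀] [Countable k₀] (B : Type) [CommRing B] [IsDomain B]
    [Algebra k₀ B] [Algebra.FiniteType k₀ B] : Countable (FractionRing B) := by
  have h4 : Countable B := by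
    obtain ⟨r, f, hf⟩ := Algebra.FiniteType.iff_quotient_mvPolynomial''.mp
      (inferInstance : Algebra.FiniteType k₀ B)
    have : Countable (MvPolynomial (Fin r) k₀) := by
      rw [← Cardinal.mk_le_aleph0_iff]
      refine MvPolynomial.cardinalMk_le_max.trans ?_
      simp [Cardinal.mk_le_aleph0]
    exact hf.countable
  refine Function.Surjective.countable
    (f := fun x : B × nonZeroDivisors B => IsLocalization.mk' (FractionRing B) x.1 x.2) ?_
  intro x
  obtain ⟨a, s, hx⟩ := IsLocalization.exists_mk'_eq (nonZeroDivisors B) x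
  exact ⟨(a, s), hx⟩

/-- An element with the same image under two independent embeddings is zero. -/
lemma eq_zero {T : MotivicData.{w}} {k₀ : Type} [Field k₀] {n : ℤ} (hT : IsMotivic T k₀ n) {m : ℤ}
    (hm : 2 * n ≤ m) {B : Type} [CommRing B] [IsDomain B] [Algebra k₀ B] [Algebra.FiniteType k₀ B]
    {L : Type} [Field L] [Algebra k₀ L]
    {i j : FractionRing B →+* L} (hij : Independent k₀ i j) {x : T.H n m (FractionRing B)}
    (hx : T.map n m i x = T.map n m j x) : x = 0 := by
  obtain ⟨K', P, _, _, _, _, f, g, y, hy⟩ := hT.special m hm B L i j hij x hx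
  have := hT.base m hm P
  rw [Subsingleton.elim y 0, map_zero] at hy
  exact (map_eq_zero_iff _ (hT.injective m hm f)).mp hy

/-- **Theorem.** Let `k₀` be a prime field, `Ω` an uncountable algebraically closed field containing it, `n` a weight
(`n ≥ 1`), and `T` data with the known properties of motivic cohomology.

(A) For `m ≥ 2 n` and `K` finitely generated over `k₀`, every nonzero element of `H^(2n-m)(K, ℤ(n))` has at least as many
images in `H^(2n-m)(Ω, ℤ(n))` under the embeddings of `K` in `Ω` as `Ω` has elements.

(B) Equivalent are: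
(1) `ℤ(n)` on `Sm/k` is acyclic in the degrees `≤ 0` for all fields `k` containing `k₀`;
(2) the groups `H^i(Ω, ℤ(n))`, `i ≤ 0`, are countable;
(3) the groups `H^i(Ω, ℤ(n))`, `i ≤ 0`, have fewer elements than `Ω`;
(4) for `K` finitely generated over `k₀` and `i ≤ 0`, every element of `H^i(K, ℤ(n))` has the same image under some two
independent embeddings of `K` in `Ω`. -/
theorem result (T : MotivicData.{w}) (k₀ : Type) [Field k₀] [Countable k₀] (_ : IsPrimeField k₀)
    (n : ℤ) (_ : 1 ≤ n) (hT : IsMotivic T k₀ n)
    (Ω : Type) [Field Ω] [Algebra k₀ Ω] [IsAlgClosed Ω] (hΩ : ¬ Countable Ω) :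
    (∀ m : ℤ, 2 * n ≤ m → ∀ (B : Type) [CommRing B] [IsDomain B] [Algebra k₀ B]
      [Algebra.FiniteType k₀ B] (x : T.H n m (FractionRing B)), x ≠ 0 →
      ∃ y : Ω → T.H n m Ω, Function.Injective y ∧
        ∀ r, ∃ φ : FractionRing B →+* Ω, T.map n m φ x = y r) ∧
    List.TFAE [
      ∀ (k : Type) [Field k] [Algebra k₀ k], T.Acyclic k n,
      ∀ m : ℤ, 2 * n ≤ m → Countable (T.H n m Ω),
      ∀ m : ℤ, 2 * n ≤ m → ¬ ∃ f : Ω → T.H n m Ω, Function.Injective f,
      ∀ m : ℤ, 2 * n ≤ m → ∀ (B : Type) [CommRing B] [IsDomain B] [Algebra k₀ B]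
        [Algebra.FiniteType k₀ B] (x : T.H n m (FractionRing B)),
        ∃ i j : FractionRing B →+* Ω, Independent k₀ i j ∧ T.map n m i x = T.map n m j x] := by
  have hΩ' : ℵ₀ < #Ω := by
    rw [← not_le, Cardinal.mk_le_aleph0_iff]
    exact hΩ
  have fam : ∀ (B : Type) [CommRing B] [IsDomain B] [Algebra k₀ B] [Algebra.FiniteType k₀ B],
      ∃ φ : Ω → (FractionRing B →+* Ω), ∀ r s, r ≠ s → Independent k₀ (φ r) (φ s) := by
    intro B _ _ _ _
    have := countable_fraction k₀ B
    exact exists_family hΩ'
  refine ⟨?_, ?_⟩
  · intro m hm B _ _ _ _ x hx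
    obtain ⟨φ, hφ⟩ := fam B
    refine ⟨fun r => T.map n m (φ r) x, fun r s hrs => ?_, fun r => ⟨φ r, rfl⟩⟩
    by_contra hne
    exact hx (eq_zero hT hm (hφ r s hne) hrs)
  · tfae_have 1 → 2 := fun h m hm => by
      have := (hT.gersten Ω).mp (h Ω) m hm Ω
      infer_instance
    tfae_have 2 → 3 := by
      rintro h m hm ⟨f, hf⟩
      have := h m hm
      exact hΩ hf.countable
    tfae_have 3 → 4 := by
      intro h m hm B _ _ _ _ x
      obtain ⟨φ, hφ⟩ := fam B
      have h4 : ¬ Function.Injective fun r => T.map n m (φ r) x := fun hinj => h m hm ⟨_, hinj⟩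
      simp only [Function.Injective, not_forall] at h4
      obtain ⟨r, s, hrs, hne⟩ := h4
      exact ⟨φ r, φ s, hφ r s hne, hrs⟩
    tfae_have 4 → 1 := by
      intro h
      have h0 : ∀ m : ℤ, 2 * n ≤ m → ∀ (L : Type) [Field L] [Algebra k₀ L],
          Subsingleton (T.H n m L) := by
        intro m hm L _ _
        have h1 : ∀ y : T.H n m L, y = 0 := fun y => by
          obtain ⟨B, _, _, _, _, f, x, rfl⟩ := hT.small m L y
          obtain ⟨i, j, hij, hx⟩ := h m hm B x
          rw [eq_zero hT hm hij hx, map_zero]
        exact ⟨fun x y => by rw [h1 x, h1 y]⟩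
      refine hT.perfect fun k _ _ _ => (hT.gersten k).mpr ?_
      intro m hm L _ _ _
      let : Algebra k₀ L := ((algebraMap k L).comp (algebraMap k₀ k)).toAlgebra
      exact h0 m hm L
    tfae_finish

end Pool.Agent.Results.MP_e2821c_ag.CountableSuffices
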