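import Pool.Agent.U227.GalFix

/-!
# Beilinson-Soulé vanishing in finite Galois extensions

Let `A` be a functor from commutative rings to `ℚ`-vector spaces with Galois descent for fields: for a finite
Galois extension `L/E` the map `A(E) → A(L)` is injective with image the elements fixed by the Galois group. The
example is the sum of the Adams eigenspaces `K_(2n-i)(-)^(n) ⊗ ℚ` over any set of pairs `(i, n)` with
`i ≤ 0 < n`; for a field `F` this is the sum of the motivic cohomology groups `H^i(F, ℚ(n))`, which (with the norm
residue theorem) are zero if and only if the groups `H^i(F, ℤ(n))` are, and the conjecture of Beilinson and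
Soulé for the complexes `ℤ(n)` is the vanishing of these groups for all fields.

Let `L/k` be a finite Galois extension with group `G`. We determine how the vanishing for `L` and for the
intermediate fields depend on each other:

1. For an intermediate field `E`, `A(E) = 0` if and only if no irreducible rational representation of `G`
   which occurs in `A(L)` has a nonzero vector fixed by `Gal(L/E)`.
2. If `c` is an involution in `G`, then `A(L) = 0` if and only if `A` vanishes on `L^c` and on the fixed field
   of `[G,c]`; if `c` is contained in a nonabelian simple subgroup, if and only if `A(L^c) = 0`; if a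
   subgroup of `G` is partitioned into subgroups `D_j`, at least two, if and only if `A(L^(D_j)) = 0` for
   all `j`; if `G` is commutative, if and only if `A(E) = 0` for all cyclic extensions `E/k` in `L`.
3. If `A(L)` is not zero, but `A(L^D) = 0` for all subgroups `D` of prime order, then an irreducible rational
   representation in which the elements different from one fix only `0` occurs in `A(L)`, the commutative
   subgroups and the subgroups of order `p q` of `G` are cyclic, and `G` has at most one involution.

The group theoretic criteria in 2 and 3 are from the library (`X252`, `X328`).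
-/

open Pool.Agent.X252.GA Pool.Agent.X252.SCT Pool.Agent.U227.Grp Pool.Agent.U227.GalFix
open CategoryTheory

universe w

namespace Pool.Agent.Results.MP_e2821c_ag.GaloisExtensions

/-- **Beilinson-Soulé vanishing in finite Galois extensions.** -/
theorem result (A : CommRingCat.{0} ⥤ ModuleCat.{w} ℚ) (hA : GaloisDescent A)
    (k L : Type) [Field k] [Field L] [Algebra k L] [FiniteDimensional k L] [IsGalois k L] :
    (∀ E : IntermediateField k L, Vanishes A E ↔
      ∀ (V : Type) [AddCommGroup V] [Module ℚ V] (ρ : (L ≃ₐ[k] L) →* Module.End ℚ V), Irred ρ →
        Occurs A k L ρ → ¬ HasFixed ρ E.fixingSubgroup) ∧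
    QuotientLaws (Vanishes A L)
      (fun H : Subgroup (L ≃ₐ[k] L) => Vanishes A (IntermediateField.fixedField H)) ∧
    (¬ Vanishes A L →
      AtPrimes (fun H : Subgroup (L ≃ₐ[k] L) => Vanishes A (IntermediateField.fixedField H)) →
      (∃ (V : Type) (_ : AddCommGroup V) (_ : Module ℚ V) (ρ : (L ≃ₐ[k] L) →* Module.End ℚ V),
        IsFree ρ ∧ Occurs A k L ρ) ∧ CyclicSubgroups (L ≃ₐ[k] L)) :=
  galois hA

end Pool.Agent.Results.MP_e2821c_ag.GaloisExtensions
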