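import Pool.Agent.U586.MU.BS
import Pool.Agent.Q282.UZ.Fam

/-!
# MP_e2821c_ag: the vanishing conjecture of Beilinson and Soulé and line arrangements

The conjecture (Q1) says that the motivic cohomology groups `H^i(L, ℤ(n)) = CH^n(L, 2n - i)` of all fields
`L` are zero for `n ≥ 1` and `i ≤ 0` (the cohomology sheaves of `ℤ(n)` on `Sm/k` vanish if and only if
their stalks at the generic points do); it suffices to consider finitely generated fields, that is the
quotient fields of the integral domains `B` of finite type over `ℤ`.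

The theorem: weight by weight and dimension by dimension this is equivalent to the vanishing of the groups
`H^i(X, ℤ(n)) = CH_{s-n}(X, 2n - i)`, `s = dim X`, `i ≤ 0`, for very special smooth affine schemes `X` over
`ℤ` or over prime fields: the integral smooth realization spaces of line arrangements (of matroids of rank
3), and also the integral smooth schemes of families of solutions of the unit equation `x + y = 1` with
given multiplicative relations.
-/

set_option autoImplicit false

open CategoryTheory AlgebraicGeometry MvPolynomial Pool.Agent.Y116.UV Pool.Agent.Q282.UZ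
  Pool.Agent.U586.MU

universe w

namespace Pool.Agent.Results.MP_e2821c_ag.RealizationSpaces

/-- `X` is the realization space over `ℤ` of a configuration type: the scheme of the configurations of
points `e ∈ E` of the projective plane, in the coordinates given by a projective frame, for which exactly
the triples in a given set are collinear. -/
def IsRealizationSpace (X : Sch ℤ) : Prop :=
  ∃ (E : Type) (_ : Fintype E) (π : Cfg E), X = π.space ℤ

/-- `X` is the scheme over `ℤ` of the families of units `x_i, y_i`, `i ∈ I`, with `x_i + y_i = 1` which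
satisfy given signed binomial equations `∏ u_v ^ p_v = ± ∏ u_v ^ q_v`. -/
def IsUnitScheme (X : Sch ℤ) : Prop :=
  ∃ (I : Type) (_ : Fintype I) (S : Set (SBin (I ⊕ I))), X = uspace ℤ S

/-- `H^i(X, ℤ(n)) = CH_{s-n}(X, 2n - i) = 0` for the weights `1 ≤ n ≤ N` and all `i ≤ 0`, `s = dim X`. -/
def Vanishes (T : ChowData.{w}) (N : ℕ) (X : Sch ℤ) : Prop :=
  ∀ s : ℕ, topologicalKrullDim X.left = s → ∀ n m : ℤ, 1 ≤ n → n ≤ N → 2 * n ≤ m →
    Subsingleton (T.A (s - n) m X)

/-- `H^i(L, ℤ(n)) = CH^n(L, 2n - i) = 0` for the weights `1 ≤ n ≤ N` and all `i ≤ 0`. -/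
def FieldVanishes (T : ChowData.{w}) (N : ℕ) (L : Type) [Field L] : Prop :=
  ∀ n m : ℤ, 1 ≤ n → n ≤ N → 2 * n ≤ m → Subsingleton (T.H n m L)

/-- The schemes in the class `K` of dimension at most `d` which are integral with the property `Sm`. -/
def Nice (K Sm : Sch ℤ → Prop) (d : ℕ) (X : Sch ℤ) : Prop :=
  K X ∧ topologicalKrullDim X.left ≤ d ∧ IsIntegral X.left ∧ Sm X

variable {T : ChowData.{w}} {K Sm : Sch ℤ → Prop}

/-- the class of schemes of dimension at most `e` in `K` -/
lemma hered_both (hK : Hered False K) (e : ℕ) :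
    Hered False fun X : Sch ℤ => K X ∧ DimLE (e : WithBot ℕ∞) X where
  iso hX e h := ⟨hK.iso hX e h.1, (hered_dim False _).iso hX e h.2⟩
  sub i u hX ht h := ⟨⟨(hK.sub i u hX ht h.1).1, ((hered_dim False _).sub i u hX ht h.2).1⟩,
    ⟨(hK.sub i u hX ht h.1).2, ((hered_dim False _).sub i u hX ht h.2).2⟩⟩

lemma low_dim (hT : IsChowTheory T) {X : Sch ℤ} (hX : FT False X) (s : ℕ) {j m : ℤ}
    (hs : topologicalKrullDim X.left ≤ s) (hj : (s : ℤ) ≤ j) (hm : 1 ≤ m) :
    Subsingleton (T.A j m X) :=
  scheme_of_fields hT (K := fun _ => True) ⟨fun _ _ _ => trivial, fun _ _ _ _ _ => ⟨trivial, trivial⟩⟩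
    s j m (fun B _ _ _ _ _ e _ hes => hT.low _ _ _ (by omega) hm) X hX trivial hs

/-- the existence of the dimension -/
lemma exists_dim {X : Sch ℤ} (hX : IsIntegral X.left) (e : ℕ)
    (h : topologicalKrullDim X.left ≤ e) : ∃ s : ℕ, topologicalKrullDim X.left = s ∧ s ≤ e := by
  have hne : Nonempty X.left := inferInstance
  have h2 : topologicalKrullDim X.left ≠ ⊥ := by
    have : Nonempty (TopologicalSpace.IrreducibleCloseds X.left) :=
      ⟨⟨closure {hne.some}, isIrreducible_singleton.closure, isClosed_closure⟩⟩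
    intro hb
    have h0 : (0 : WithBot ℕ∞) ≤ topologicalKrullDim X.left := Order.krullDim_nonneg
    rw [hb] at h0
    exact absurd h0 (by simp)
  obtain ⟨k, hk⟩ := WithBot.ne_bot_iff_exists.mp h2
  rw [← hk] at h
  have h3 : k ≤ (e : ℕ∞) := WithBot.coe_le_coe.mp h
  obtain ⟨s, hs⟩ := ENat.ne_top_iff_exists.mp (ne_top_of_le_ne_top (ENat.natCast_ne_top e) h3)
  refine ⟨s, by rw [← hk, ← hs]; rfl, ?_⟩
  rw [← hs] at h3
  exact_mod_cast h3

/-- The passage from the special schemes to all schemes. -/
lemma all_of_special (hT : IsChowTheory T) (N d : ℕ)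
    {G : Sch ℤ → Prop}
    (hG : ∀ (P : Sch ℤ → Prop) (e : ℕ), Ext False P → (∀ X : Sch ℤ, FT False X → G X →
      (K X ∧ DimLE (e : WithBot ℕ∞) X) → Good Sm X → P X) → ∀ X : Sch ℤ, FT False X →
      (K X ∧ DimLE (e : WithBot ℕ∞) X) → P X)
    (h : ∀ X : Sch ℤ, G X → Nice K Sm d X → Vanishes T N X) (e : ℕ) (he : e ≤ d) (j m : ℤ)
    (h1 : 1 ≤ (e : ℤ) - j) (h2 : (e : ℤ) - j ≤ N) (h3 : 2 * ((e : ℤ) - j) ≤ m) (X : Sch ℤ)
    (hX : FT False X) (hKX : K X) (hd : topologicalKrullDim X.left ≤ e) :
    Subsingleton (T.A j m X) := by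
  refine hG (fun X => Subsingleton (T.A j m X)) e (hT.ext j m) ?_ X hX ⟨hKX, hd⟩
  rintro Y hY hGY ⟨hKY, hdY⟩ hgood
  rcases hgood with hE | ⟨hI, hS⟩
  · exact hT.empty Y hE j m
  · obtain ⟨s, hs, hse⟩ := exists_dim hI e hdY
    rcases le_or_gt (s : ℤ) j with hsj | hsj
    · exact low_dim hT hY s hs.le hsj (by omega)
    · have hdd : topologicalKrullDim Y.left ≤ d := by
        rw [hs]
        exact_mod_cast hse.trans he
      have := h Y hGY ⟨hKY, hdd, hI, hS⟩ s hs (s - j) m (by omega) (by omega) (by omega)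
      rwa [sub_sub_cancel] at this

/-- **Theorem.** The class of the schemes of dimension at most `d` is hereditary, and smoothness over `ℤ` or
over a prime field is a generic property. Let `T` be data with the properties of higher Chow groups. Let
`K` be a hereditary class of schemes over `ℤ`, `Sm` a generic property, and `N, d` natural numbers. The
following are equivalent:
(1) `H^i(L, ℤ(n)) = 0` for `1 ≤ n ≤ N` and all `i ≤ 0` for the quotient fields `L` of the integral domains
`B` of finite type over `ℤ` of dimension at most `d` with `Spec B` in `K`;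
(2) `H^i(X, ℤ(n)) = 0` for `1 ≤ n ≤ N` and all `i ≤ 0` for all schemes `X` of finite type over `ℤ` in `K` of
dimension at most `d`;
(3) the same for the integral realization spaces in `K` with the property `Sm` of dimension at most `d`;
(4) the same for the integral schemes of solutions of unit equations in `K` with the property `Sm` of
dimension at most `d`. -/
theorem result :
    (∀ d : WithBot ℕ∞, Hered False fun X : Sch ℤ => topologicalKrullDim X.left ≤ d) ∧
    (Generic fun X : Sch ℤ => SmoothOverPrime X.left) ∧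
    ∀ T : ChowData.{w}, IsChowTheory T → ∀ K Sm : Sch ℤ → Prop, Hered False K → Generic Sm →
      ∀ N d : ℕ, List.TFAE [
        ∀ (B : Type) [CommRing B] [IsDomain B] [Algebra ℤ B] [Algebra.FiniteType ℤ B],
          K (aff ℤ B) → ringKrullDim B ≤ d → FieldVanishes T N (FractionRing B),
        ∀ X : Sch ℤ, LocallyOfFiniteType X.hom → QuasiCompact X.hom → K X →
          topologicalKrullDim X.left ≤ d → Vanishes T N X,
        ∀ X : Sch ℤ, IsRealizationSpace X → Nice K Sm d X → Vanishes T N X,
        ∀ X : Sch ℤ, IsUnitScheme X → Nice K Sm d X → Vanishes T N X] := by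
  refine ⟨fun d => hered_dim False d, generic_smooth, fun T hT K Sm hK hS N d => ?_⟩
  have key : (∀ e : ℕ, e ≤ d → ∀ j m : ℤ, 1 ≤ (e : ℤ) - j → (e : ℤ) - j ≤ N →
      2 * ((e : ℤ) - j) ≤ m → ∀ X : Sch ℤ, FT False X → K X → topologicalKrullDim X.left ≤ e →
        Subsingleton (T.A j m X)) →
      ∀ (B : Type) [CommRing B] [IsDomain B] [Algebra ℤ B] [Algebra.FiniteType ℤ B],
        K (aff ℤ B) → ringKrullDim B ≤ d → FieldVanishes T N (FractionRing B) := by
    intro h B _ _ _ _ hKB hd n m h1 h2 h3
    have hd' : topologicalKrullDim (aff ℤ B).left ≤ d := by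
      rw [topDim]
      exact hd
    obtain ⟨e, he, hed⟩ := exists_dim (isIntegral_aff B inferInstance) d hd'
    rw [topDim] at he
    have := fields_of_scheme hT e (e - n) m hK
      (h e hed (e - n) m (by omega) (by omega) (by omega)) B hKB e he le_rfl
    rwa [sub_sub_cancel] at this
  tfae_have 1 → 2 := by
    intro h X hX1 hX2 hKX hd s hs n m h1 h2 h3
    have hsd : s ≤ d := by
      rw [hs] at hd
      exact_mod_cast hd
    refine scheme_of_fields hT hK s (s - n) m ?_ X ⟨hX1, hX2, fun h => h.elim⟩ hKX hs.le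
    intro B _ _ _ _ hKB e he hes
    have hBd : ringKrullDim B ≤ d := by
      rw [he]
      exact_mod_cast hes.trans hsd
    rcases le_or_gt ((e : ℤ) - (s - n)) 0 with h4 | h4
    · exact hT.low _ _ _ h4 (by omega)
    · exact h B hKB hBd _ m (by omega) (by omega) (by omega)
  tfae_have 2 → 3 := by
    rintro h X ⟨E, _, π, rfl⟩ ⟨h1, h2, -, -⟩
    exact h _ (ft_aff False).1 (ft_aff False).2 h1 h2
  tfae_have 2 → 4 := by
    rintro h X ⟨I, _, S, rfl⟩ ⟨h1, h2, -, -⟩
    exact h _ (ft_aff False).1 (ft_aff False).2 h1 h2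
  tfae_have 3 → 1 := by
    intro h
    refine key (all_of_special hT N d (G := IsRealizationSpace) (Sm := Sm) ?_ h)
    intro P e hP h0 X hX hKX
    exact universal_gen presents_int hP (hered_both hK e) hS
      (fun E _ π hKπ hg => h0 _ (ft_aff False) ⟨E, _, π, rfl⟩ hKπ hg) X hX hKX
  tfae_have 4 → 1 := by
    intro h
    refine key (all_of_special hT N d (G := IsUnitScheme) (Sm := Sm) ?_ h)
    intro P e hP h0 X hX hKX
    exact unit_universal_gen presents_int hP (hered_both hK e) hS
      (fun I _ S hKπ hg => h0 _ (ft_aff False) ⟨I, _, S, rfl⟩ hKπ hg) X hX hKX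
  tfae_finish

end Pool.Agent.Results.MP_e2821c_ag.RealizationSpaces
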