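import Pool.Agent.U738.BS.Main

/-!
# The Beilinson–Soulé vanishing: torus actions of small complexity and two-term equations

`A j m X = CH_j(X, m)` are the higher Chow groups of the separated schemes `X` of finite type over a
noetherian ring `R` (`R` a field or `ℤ`), in the form of their known properties `IsChow`: localization and
homotopy invariance. `Vanishes A X` is the vanishing of Beilinson and Soulé for `X`, in all weights:
`CH_{s-n}(X, m) = 0` for `s ≥ dim X`, `m ≥ 2n`, `(n, m) ≠ (0, 0)`; for regular equidimensional `X`
of dimension `s` this means `H^i(X, ℤ(n)) = 0` for all `n ≥ 1` and `i ≤ 0`. (Q1 is equivalent to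
`Vanishes A X` for all `X` over `ℤ`: the fields of Kronecker dimension at most `N` correspond to the
schemes of dimension at most `N`, see `RealizationSpaces`.)

1. Over every noetherian ring `R` and for every `N` the following are equivalent: the vanishing for all affine
   schemes of finite type of dimension at most `N`; for all schemes `Spec S[x_1, …, x_m] / (G)` of any
   dimension, where `dim S ≤ N` and `G` is any set of polynomials with at most two terms; for all schemes
   `Spec A` of any dimension with an action of a diagonalizable group of complexity at most `N`; for all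
   schemes pasted from such schemes (`Pasted N`).
2. Over `ℤ` it is true for `N = 1` (in dimension one: Borel, Harder, and the theorem of Beilinson and
   Lichtenbaum for the torsion): `H^i(X, ℤ(n)) = 0` for all `n ≥ 1` and `i ≤ 0` for all `X` in
   `Pasted 1`, in particular for all arithmetic schemes of any dimension with a torus action of complexity one
   and for all binomial schemes over arithmetic curves.

The point is that the dimension enters the vanishing range, and that the strata of the schemes in 1. have
large dimension: `Vanishes` passes from `X` to `X × 𝔾_m`, where the weight, the dimension and the degree are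
shifted at the same time.
-/

set_option autoImplicit false

open CategoryTheory AlgebraicGeometry Pool.Agent.Y116.UV Pool.Agent.U738.BN Pool.Agent.U738.CX
  Pool.Agent.U738.BS

namespace Pool.Agent.Results.MP_e2821c_ag.TorusActions

universe w

lemma of_terms {R : Type} [CommRing R] {A : ℤ → ℤ → Sch R → ModuleCat.{w} ℤ} (h : IsChow A)
    (N : WithBot ℕ∞) (h1 : ForTerms N 2 (Vanishes A)) : ForDimension N (Vanishes A) := by
  intro B _ _ _ hB
  have h2 := h1 B hB 0 ∅ (by simp)
  have e : (MvPolynomial (Fin 0) B ⧸ Ideal.span (∅ : Set (MvPolynomial (Fin 0) B))) ≃ₐ[R] B :=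
    ((AlgEquiv.quotientBot R (MvPolynomial (Fin 0) B)).symm.trans
      (Ideal.quotientEquivAlgOfEq R (Ideal.span_empty).symm)).symm.trans
      ((MvPolynomial.isEmptyAlgEquiv B (Fin 0)).restrictScalars R)
  exact van_iso h (ft_aff True) ⟨affIso e.symm⟩ h2

/-- **Theorem.** (1) The vanishing of Beilinson and Soulé for the affine schemes of dimension at most `N`
is equivalent to the vanishing for two-term equations over rings of dimension at most `N`, for actions of
diagonalizable groups of complexity at most `N`, and for everything pasted from these. (2) Over `ℤ` it is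
true for the schemes in `Pasted 1`. -/
theorem result :
    (∀ (R : Type) [CommRing R] [IsNoetherianRing R] (A : ℤ → ℤ → Sch R → ModuleCat.{w} ℤ),
      IsChow A → ∀ N : ℕ, List.TFAE [
        ForDimension N (Vanishes A),
        ForTerms N 2 (Vanishes A),
        ForComplexity N (Vanishes A),
        ∀ X : Sch R, Pasted N X → Vanishes A X]) ∧
    ∀ A : ℤ → ℤ → Sch ℤ → ModuleCat.{w} ℤ, IsChow A → ForDimension 1 (Vanishes A) →
      ∀ X : Sch ℤ, Pasted 1 X → ∀ s : ℕ, topologicalKrullDim X.left = s → ∀ n : ℤ, 1 ≤ n →
        ∀ i : ℤ, i ≤ 0 → Subsingleton (A (s - n) (2 * n - i) X) := by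
  refine ⟨fun R _ _ A h N => ?_, fun A h h1 X hX s hs n hn i hi => ?_⟩
  · tfae_have 1 → 4 := fun h1 X hX => pasted h h1 hX
    tfae_have 4 → 2 := fun h4 S _ _ _ hS m G hG => h4 _ (Pasted.terms S m G hS hG)
    tfae_have 4 → 3 := fun h4 B _ _ _ Γ _ _ 𝒜 _ hd => h4 _ (Pasted.graded B Γ 𝒜 hd)
    tfae_have 2 → 1 := fun h2 => of_terms h N h2
    tfae_have 3 → 1 := fun h3 B _ _ _ hB => by
      let _ := trivGraded (R := R) (A := B)
      exact h3 B PUnit.{1} (trivGr R B) (triv_complexity hB)
    tfae_finish
  · exact pasted h h1 hX s hs.le n (2 * n - i) (by omega) (by omega)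

end Pool.Agent.Results.MP_e2821c_ag.TorusActions
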